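import Pool.Agent.Helper1.Stab.Model

/-! Maps into half smash products. -/

open CategoryTheory Topology Filter Set Opposite

noncomputable section

namespace Pool.Agent.Helper1.Stab

namespace Bsu5

/-! ### The map `squash` -/

theorem squash_val (t : ℝ) : ((squash t : unitInterval) : ℝ) = (1 + t / (1 + |t|)) / 2 := rfl

theorem continuous_squash : Continuous squash := by
  refine Continuous.subtype_mk ?_ _
  have h : ∀ t : ℝ, 1 + |t| ≠ 0 := fun t => by positivity
  fun_prop (disch := exact h _)

theorem abs_frac_lt (t : ℝ) : |t / (1 + |t|)| < 1 := by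
  have h0 : 0 < 1 + |t| := by positivity
  rw [abs_div, abs_of_pos h0, div_lt_one h0]
  linarith

theorem strictMono_squash : StrictMono squash := by
  intro s t hst
  change (1 + s / (1 + |s|)) / 2 < (1 + t / (1 + |t|)) / 2
  have h1 : 0 < 1 + |s| := by positivity
  have h2 : 0 < 1 + |t| := by positivity
  have h3 : s / (1 + |s|) < t / (1 + |t|) := by
    rw [div_lt_div_iff₀ h1 h2]
    rcases abs_cases s with ⟨hs, hs'⟩ | ⟨hs, hs'⟩ <;> rcases abs_cases t with ⟨ht, ht'⟩ | ⟨ht, ht'⟩ <;>
      rw [hs, ht] <;> nlinarith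
  linarith

theorem squash_pos (t : ℝ) : (0 : ℝ) < (squash t : unitInterval) := by
  rw [squash_val]
  have := abs_lt.1 (abs_frac_lt t)
  linarith [this.1]

theorem squash_lt_one (t : ℝ) : ((squash t : unitInterval) : ℝ) < 1 := by
  rw [squash_val]
  have := abs_lt.1 (abs_frac_lt t)
  linarith [this.2]

theorem exists_squash {s : unitInterval} (h0 : s ≠ 0) (h1 : s ≠ 1) : ∃ t, squash t = s := by
  have h0' : (0 : ℝ) < s := unitInterval.pos_iff_ne_zero.2 h0
  have h1' : (s : ℝ) < 1 := unitInterval.lt_one_iff_ne_one.2 h1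
  rcases le_total (s : ℝ) (1 / 2) with h | h
  · refine ⟨(2 * s - 1) / (2 * s), Subtype.ext ?_⟩
    rw [squash_val]
    have h2 : (2 * (s : ℝ) - 1) / (2 * s) ≤ 0 :=
      div_nonpos_of_nonpos_of_nonneg (by linarith) (by linarith)
    rw [abs_of_nonpos h2]
    have h3 : (1 : ℝ) + -((2 * (s : ℝ) - 1) / (2 * s)) = 1 / (2 * s) := by
      field_simp
      ring
    rw [h3]
    field_simp
    ring
  · refine ⟨(2 * s - 1) / (2 - 2 * s), Subtype.ext ?_⟩
    rw [squash_val]
    have h5 : (0 : ℝ) < 2 - 2 * s := by linarith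
    have h2 : 0 ≤ (2 * (s : ℝ) - 1) / (2 - 2 * s) := div_nonneg (by linarith) h5.le
    rw [abs_of_nonneg h2]
    have h6 : (2 : ℝ) - 2 * s ≠ 0 := ne_of_gt h5
    have h3 : (1 : ℝ) + (2 * (s : ℝ) - 1) / (2 - 2 * s) = 1 / (2 - 2 * s) := by
      rw [eq_div_iff h6, add_mul, div_mul_cancel₀ _ h6]
      ring
    rw [h3, div_div_div_cancel_right₀ h6]
    ring

theorem isEmbedding_squash : IsEmbedding squash := by
  have : OrdConnected (range squash) := by
    refine ⟨?_⟩
    rintro _ ⟨a, rfl⟩ _ ⟨b, rfl⟩ c ⟨h1, h2⟩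
    refine exists_squash ?_ ?_
    · rintro rfl
      exact absurd (show ((squash a : unitInterval) : ℝ) ≤ 0 from h1) (not_le.2 (squash_pos a))
    · rintro rfl
      exact absurd (show (1 : ℝ) ≤ (squash b : unitInterval) from h2) (not_le.2 (squash_lt_one b))
  exact strictMono_squash.isEmbedding_of_ordConnected this

/-- the embedding of `ℝ^v` in the cube -/
def sqv {v : ℕ} (x : Fin v → ℝ) : Fin v → unitInterval := fun i => squash (x i)

theorem isEmbedding_sqv (v : ℕ) : IsEmbedding (sqv (v := v)) := by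
  have h := IsEmbedding.piMap (fun _ : Fin v => isEmbedding_squash)
  exact h

theorem sqv_notMem {v : ℕ} (x : Fin v → ℝ) : sqv x ∉ Cube.boundary (Fin v) := by
  rintro ⟨i, h | h⟩
  · have := squash_pos (x i)
    change squash (x i) = 0 at h
    rw [h] at this
    exact absurd this (lt_irrefl _)
  · have := squash_lt_one (x i)
    change squash (x i) = 1 at h
    rw [h] at this
    exact absurd this (lt_irrefl _)

theorem exists_sqv {v : ℕ} {u : Fin v → unitInterval} (h : u ∉ Cube.boundary (Fin v)) :
    ∃ x, sqv x = u := by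
  have h1 : ∀ i, ∃ t, squash t = u i := fun i =>
    exists_squash (fun h0 => h ⟨i, Or.inl h0⟩) (fun h0 => h ⟨i, Or.inr h0⟩)
  choose x hx using h1
  exact ⟨x, funext hx⟩

/-! ### Points of half smash products -/

section
variable {v : ℕ} {X : Type} [TopologicalSpace X]

open Classical in
/-- the coordinates of a point -/
def coords (y : Sph v X) : Option ((Fin v → unitInterval) × X) :=
  Quot.lift (Sum.elim (fun _ => none) fun p => if p.1 ∈ Cube.boundary (Fin v) then none
    else some p) (by
      rintro _ _ ⟨u, x, h⟩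
      simp [h]) y

theorem coords_mk_of_notMem {u : Fin v → unitInterval} (h : u ∉ Cube.boundary (Fin v)) (x : X) :
    coords (Sph.mk u x) = some (u, x) := by
  classical
  change (if u ∈ Cube.boundary (Fin v) then none else some (u, x)) = some (u, x)
  rw [if_neg h]

theorem coords_pt : coords (Sph v X).pt = none := rfl

theorem coords_mk_of_mem {u : Fin v → unitInterval} (h : u ∈ Cube.boundary (Fin v)) (x : X) :
    coords (Sph.mk u x) = none := by
  classical
  change (if u ∈ Cube.boundary (Fin v) then none else some (u, x)) = none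
  rw [if_pos h]

theorem mk_eq_pt {u : Fin v → unitInterval} {x : X} (h : Sph.mk u x = (Sph v X).pt) :
    u ∈ Cube.boundary (Fin v) := by
  by_contra h1
  have h2 := congrArg coords h
  rw [coords_mk_of_notMem h1, coords_pt] at h2
  exact absurd h2 (by simp)

theorem mk_eq_mk {u u' : Fin v → unitInterval} {x x' : X} (hu : u ∉ Cube.boundary (Fin v))
    (h : Sph.mk u x = Sph.mk u' x') : u = u' ∧ x = x' := by
  by_cases h1 : u' ∈ Cube.boundary (Fin v)
  · rw [mk_eq_pt_of_boundary u' x' h1] at h
    exact absurd (mk_eq_pt h) hu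
  · have h2 := congrArg coords h
    rw [coords_mk_of_notMem h1, coords_mk_of_notMem hu] at h2
    simpa using h2

theorem cast_mk {a b : ℕ} (h : a = b) (u : Fin a → unitInterval) (x : X) :
    Sph.cast h (Sph.mk u x) = Sph.mk (fun i => u (Fin.cast h.symm i)) x := by
  subst h
  rfl

/-- the map induced by a map of the second factor -/
def sphMap (v : ℕ) {X' : Type} [TopologicalSpace X'] (φ : C(X, X')) : C(Sph v X, Sph v X') :=
  ⟨Quot.map (Sum.map id (Prod.map id φ)) (by
    rintro _ _ ⟨u, x, h⟩
    exact SphRel.bd u (φ x) h), by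
    refine continuous_quot_lift _ (continuous_quot_mk.comp ?_)
    fun_prop⟩

theorem sphMap_mk {X' : Type} [TopologicalSpace X'] (φ : C(X, X')) (u : Fin v → unitInterval)
    (x : X) : sphMap v φ (Sph.mk u x) = Sph.mk u (φ x) := rfl

theorem sphMap_pt {X' : Type} [TopologicalSpace X'] (φ : C(X, X')) :
    sphMap v φ (Sph v X).pt = (Sph v X').pt := rfl

theorem sphMap_cast {X' : Type} [TopologicalSpace X'] (φ : C(X, X')) {a b : ℕ} (h : a = b)
    (y : Sph a X) : sphMap b φ (Sph.cast h y) = Sph.cast h (sphMap a φ y) := by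
  subst h
  rfl

/-- a point of `Sph v X` is the base point or `[u, x]` with `u` in the interior -/
theorem sph_cases (y : Sph v X) : y = (Sph v X).pt ∨ ∃ u x, y = Sph.mk u x := by
  induction y using Quot.ind with | _ y => ?_
  rcases y with y | ⟨u, x⟩
  · exact Or.inl rfl
  · exact Or.inr ⟨u, x, rfl⟩

end

/-! ### The structure maps of a telescope -/

section
variable {d : ℕ} {X : Type} [TopologicalSpace X] (m : SelfMap d X)

theorem teleStr_mk_of_ne {v : ℕ} (h : v ≠ d) (t : unitInterval) (u : Fin v → unitInterval)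
    (x : X) : teleStr m v t (Sph.mk u x) = Sph.cast (if_neg h).symm (Sph.mk (Fin.cons t u) x) := by
  unfold teleStr
  rw [dif_neg h]
  rfl

theorem teleStr_mk_of_eq {v : ℕ} (h : v = d) (t : unitInterval) (u : Fin v → unitInterval)
    (x : X) : teleStr m v t (Sph.mk u x) = Sph.cast (if_pos h).symm
      (m.toFun (Fin.cons t fun i => u (Fin.cast h.symm i), x)) := by
  subst h
  unfold teleStr
  rw [dif_pos rfl]
  rfl

theorem teleStr_cast {v v' : ℕ} (h : v = v') (t : unitInterval) (y : Sph v X) :
    teleStr m v' t (Sph.cast h y) = Sph.cast (by rw [h]) (teleStr m v t y) := by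
  subst h
  rfl

theorem cast_cast {a b c : ℕ} (h : a = b) (h' : b = c) (y : Sph a X) :
    Sph.cast h' (Sph.cast h y) = Sph.cast (h.trans h') y := by
  subst h h'
  rfl

/-- two steps inside a block -/
theorem teleStr_two_A {v : ℕ} (h : v ≠ d) (h' : v + 1 ≠ d) (s t : unitInterval)
    (u : Fin v → unitInterval) (x : X)
    (hc : v + 2 = if (if v = d then 1 else v + 1) = d then 1
      else (if v = d then 1 else v + 1) + 1) :
    teleStr m (if v = d then 1 else v + 1) s (teleStr m v t (Sph.mk u x)) =
      Sph.cast hc (Sph.mk (Fin.cons s (Fin.cons t u : Fin (v + 1) → unitInterval)) x) := by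
  rw [teleStr_mk_of_ne m h, teleStr_cast, teleStr_mk_of_ne m h', cast_cast]

/-- two steps at the end of a block -/
theorem teleStr_two_B {v : ℕ} (h : v = d) (h' : 1 ≠ d) (s t : unitInterval)
    (u : Fin v → unitInterval) (x : X) (w : Fin 1 → unitInterval) (y : X)
    (hm : m.toFun (Fin.cons t fun i => u (Fin.cast h.symm i), x) = Sph.mk w y)
    (hc : 2 = if (if v = d then 1 else v + 1) = d then 1
      else (if v = d then 1 else v + 1) + 1) :
    teleStr m (if v = d then 1 else v + 1) s (teleStr m v t (Sph.mk u x)) =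
      Sph.cast hc (Sph.mk (Fin.cons s w : Fin 2 → unitInterval) y) := by
  rw [teleStr_mk_of_eq m h, hm, teleStr_cast, teleStr_mk_of_ne m h', cast_cast]

variable {X' : Type} [TopologicalSpace X'] (m' : SelfMap d X') (φ : C(X, X'))

theorem teleStr_sphMap (hm : ∀ u x, sphMap 1 φ (m.toFun (u, x)) = m'.toFun (u, φ x)) (v : ℕ)
    (t : unitInterval) (y : Sph v X) :
    sphMap (if v = d then 1 else v + 1) φ (teleStr m v t y) =
      teleStr m' v t (sphMap v φ y) := by
  rcases sph_cases y with rfl | ⟨u, x, rfl⟩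
  · rw [sphMap_pt, teleStr_pt, teleStr_pt, sphMap_pt]
  · rw [sphMap_mk]
    by_cases h : v = d
    · rw [teleStr_mk_of_eq m h, teleStr_mk_of_eq m' h, sphMap_cast, hm]
    · rw [teleStr_mk_of_ne m h, teleStr_mk_of_ne m' h, sphMap_cast, sphMap_mk]

/-- the map of telescopes induced by a map that commutes with the self maps -/
def teleMap (hm : ∀ u x, sphMap 1 φ (m.toFun (u, x)) = m'.toFun (u, φ x)) : tele m ⟶ tele m' :=
  ({ map := fun n => sphMap (lev d n) φ
     map_pt := fun _ => rfl
     map_str := fun n t x => teleStr_sphMap m m' φ hm (lev d n) t x } :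
    Prespectrum.Hom (tele m) (tele m'))

end

/-! ### Maps of the interior of a cube times a compact space -/

section
variable {K : LC} {T : Type} [TopologicalSpace T] [CompactSpace T] {v : ℕ}

omit [CompactSpace T] in
theorem isEmbedding_aux (e : K ≃ₜ (Fin v → ℝ) × T) :
    IsEmbedding fun k : K => ((sqv (e k).1, (e k).2) : (Fin v → unitInterval) × T) :=
  ((isEmbedding_sqv v).prodMap IsEmbedding.id).comp e.isEmbedding

/-- a map from `ℝ^v × T` given by a map of `I^v × T` -/
def mkF (e : K ≃ₜ (Fin v → ℝ) × T) {Y : PT} (F : (Fin v → unitInterval) × T → Y)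
    (hF : Continuous F) (hb : ∀ u t, u ∈ Cube.boundary (Fin v) → F (u, t) = Y.pt) : PMap K Y :=
  PMap.ofEmb (fun k : K => ((sqv (e k).1, (e k).2) : (Fin v → unitInterval) × T))
    (isEmbedding_aux e) F hF (by
      rintro ⟨u, t⟩ h
      refine hb u t ?_
      by_contra h1
      obtain ⟨x, hx⟩ := exists_sqv h1
      refine h ⟨e.symm (x, t), ?_⟩
      simp [hx])

theorem mkF_apply (e : K ≃ₜ (Fin v → ℝ) × T) {Y : PT} (F : (Fin v → unitInterval) × T → Y)
    (hF : Continuous F) (hb : ∀ u t, u ∈ Cube.boundary (Fin v) → F (u, t) = Y.pt) (k : K) :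
    mkF e F hF hb k = F (sqv (e k).1, (e k).2) := rfl

/-- homotopies between such maps -/
theorem homotopic_mkF (e : K ≃ₜ (Fin v → ℝ) × T) {Y : PT} {f g : PMap K Y}
    (G : (Fin v → unitInterval) × (unitInterval × T) → Y) (hG : Continuous G)
    (hb : ∀ u t, u ∈ Cube.boundary (Fin v) → G (u, t) = Y.pt)
    (hf : ∀ k, f k = G (sqv (e k).1, (0, (e k).2)))
    (hg : ∀ k, g k = G (sqv (e k).1, (1, (e k).2))) : f.Homotopic g := by
  let e' : LC.I.prod K ≃ₜ (Fin v → ℝ) × (unitInterval × T) :=
    { toFun := fun x => ((e x.2).1, (x.1, (e x.2).2))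
      invFun := fun y => (y.2.1, e.symm (y.1, y.2.2))
      left_inv := fun x => by simp
      right_inv := fun y => by simp
      continuous_toFun := by fun_prop
      continuous_invFun := by fun_prop }
  exact ⟨mkF e' G hG hb, fun k => (hf k).symm, fun k => (hg k).symm⟩

end

end Bsu5

end Pool.Agent.Helper1.Stab
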