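import Pool.Agent.Helper40.Stab.Ucl
import Pool.Agent.Helper40.Stab.Sq

/-! The retraction from the compact models. -/

open CategoryTheory Topology Filter Set Opposite

noncomputable section

namespace Pool.Agent.Helper1.Stab

namespace Bsu5

/-! ### The self map at the end of a block -/

/-- the values of the loop in the definition of `mulMap` -/
def wv {d : ℕ} {Z : Type} [TopologicalSpace Z] {z : Z} (f : GenLoop (Fin d) Z z)
    (c : Fin (d + 1) → unitInterval) : Z := if (c 0 : ℝ) ≤ 1 / 2 then f (stretch c) else z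

theorem mulMap_continuous' {d : ℕ} {Z B B' : Type} [TopologicalSpace Z] [TopologicalSpace B]
    [TopologicalSpace B'] {z : Z} (a : C(Z × B', B)) (f : GenLoop (Fin d) Z z) :
    Continuous fun y : (Fin (d + 1) → unitInterval) × B' => Sph.mk (height y.1)
      (a (wv f y.1, y.2)) := by
  have e : (fun y : (Fin (d + 1) → unitInterval) × B' => Sph.mk (height y.1)
      (a (wv f y.1, y.2))) =
      fun y => if (y.1 0 : ℝ) ≤ 1 / 2 then Sph.mk (height y.1) (a (f (stretch y.1), y.2)) else
        Sph.mk (height y.1) (a (z, y.2)) := by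
    funext y
    unfold wv
    split_ifs <;> rfl
  rw [e]
  refine Continuous.if_le ?_ ?_ ?_ continuous_const ?_
  · refine mk_continuous_pair (height_continuous.comp continuous_fst) (a.continuous.comp ?_)
    exact (f.1.continuous.comp (stretch_continuous.comp continuous_fst)).prodMk continuous_snd
  · refine mk_continuous_pair (height_continuous.comp continuous_fst) (a.continuous.comp ?_)
    exact continuous_const.prodMk continuous_snd
  · exact continuous_subtype_val.comp ((continuous_apply 0).comp continuous_fst)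
  · intro y hy
    rcases height_or_stretch y.1 hy with h | h
    · rw [mk_eq_pt_of_boundary _ _ h, mk_eq_pt_of_boundary _ _ h]
    · have h3 : f (stretch y.1) = z := f.2 _ h
      rw [h3]

/-- `t, [u, x] ↦ [(t, u), x]` -/
def sphCons {v : ℕ} {X : Type} [TopologicalSpace X] (t : unitInterval) (y : Sph v X) :
    Sph (v + 1) X :=
  Sph.ind (k := v + 1) (fun y => Sph.mk y.1 y.2) (fun u x hu => mk_eq_pt_of_boundary u x hu) t y

theorem sphCons_continuous {v : ℕ} {X : Type} [TopologicalSpace X] :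
    Continuous fun x : unitInterval × Sph v X => sphCons x.1 x.2 :=
  Sph.ind_continuous _ _ (mk_continuous_pair continuous_fst continuous_snd)

theorem sphCons_mk {v : ℕ} {X : Type} [TopologicalSpace X] (t : unitInterval)
    (u : Fin v → unitInterval) (x : X) :
    sphCons t (Sph.mk u x) = Sph.mk (Fin.cons t u : Fin (v + 1) → unitInterval) x := rfl

/-- the last `d + 1` coordinates -/
def tl {v d : ℕ} (h : v = d) (u : Fin (v + 2) → unitInterval) : Fin (d + 1) → unitInterval :=
  fun i => u (Fin.succ (Fin.cast (by omega) i))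

theorem homotopic_B {v d : ℕ} (h : v = d) {T : Type} [TopologicalSpace T] [CompactSpace T] {K : LC}
    (e : K ≃ₜ (Fin (v + 2) → ℝ) × T) {Z B : Type} [TopologicalSpace Z] [TopologicalSpace B] {z : Z}
    (f : GenLoop (Fin d) Z z) (H : C(unitInterval × (Z × T), B)) {v'' : ℕ} (hc : 2 = v'')
    (F₀ F₁ : PMap K (Sph v'' B))
    (h0 : ∀ k, F₀ k = Sph.cast hc (Sph.mk (Fin.cons (sqv (e k).1 0) (height (tl h (sqv (e k).1))) :
      Fin 2 → unitInterval) (H (0, (wv f (tl h (sqv (e k).1)), (e k).2)))))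
    (h1 : ∀ k, F₁ k = Sph.cast hc (Sph.mk (Fin.cons (sqv (e k).1 0) (height (tl h (sqv (e k).1))) :
      Fin 2 → unitInterval) (H (1, (wv f (tl h (sqv (e k).1)), (e k).2))))) :
    F₀.Homotopic F₁ := by
  subst h hc
  let a : C(Z × (unitInterval × T), B) := ⟨fun y => H (y.2.1, (y.1, y.2.2)), by fun_prop⟩
  have ha := mulMap_continuous' a f
  have htl : Continuous (tl (rfl : v = v)) := continuous_pi fun i => continuous_apply _
  refine homotopic_mkF e (Y := Sph 2 B) (fun y => sphCons (y.1 0) (Sph.mk (height (tl rfl y.1))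
      (a (wv f (tl rfl y.1), y.2)))) ?_ ?_ h0 h1
  · have h2 : Continuous fun y : (Fin (v + 2) → unitInterval) × (unitInterval × T) =>
        (Sph.mk (height (tl rfl y.1)) (a (wv f (tl rfl y.1), y.2)) : Sph 1 B) :=
      ha.comp ((htl.comp continuous_fst).prodMk continuous_snd)
    have h3 : Continuous fun y : (Fin (v + 2) → unitInterval) × (unitInterval × T) => y.1 0 :=
      (continuous_apply 0).comp continuous_fst
    exact (sphCons_continuous (v := 1) (X := B)).comp (h3.prodMk h2)
  · intro u t hu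
    change Sph.mk (Fin.cons (u 0) (height (tl rfl u)) : Fin 2 → unitInterval) _ = _
    refine mk_eq_pt_of_boundary _ _ ?_
    obtain ⟨i, hi⟩ := hu
    induction i using Fin.cases with
    | zero => exact ⟨0, hi⟩
    | succ j =>
      have h2 : tl rfl u ∈ Cube.boundary (Fin (v + 1)) := ⟨j, hi⟩
      obtain ⟨i', hi'⟩ := height_mem_boundary _ h2
      exact ⟨i'.succ, hi'⟩

/-- `ℂ × (ℝ^v × A) = ℝ^(v+2) × A` -/
def eC (v : ℕ) (A : LC) : LC.C.prod ((LC.rpow (Fin v)).prod A) ≃ₜ (Fin (v + 2) → ℝ) × A where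
  toFun y := (Fin.cons y.1.re (Fin.cons y.1.im y.2.1 : Fin (v + 1) → ℝ), y.2.2)
  invFun w := (⟨w.1 0, w.1 1⟩, (fun i => w.1 i.succ.succ, w.2))
  left_inv y := rfl
  right_inv w := by
    refine Prod.ext (funext fun i => ?_) rfl
    induction i using Fin.cases with
    | zero => rfl
    | succ j => induction j using Fin.cases with
      | zero => rfl
      | succ j => rfl
  continuous_toFun := by
    refine Continuous.prodMk ?_ (continuous_snd.comp continuous_snd)
    refine Continuous.finCons (A := fun _ => ℝ) (Complex.continuous_re.comp continuous_fst) ?_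
    exact Continuous.finCons (A := fun _ => ℝ) (Complex.continuous_im.comp continuous_fst)
      (continuous_fst.comp continuous_snd)
  continuous_invFun := by
    refine Continuous.prodMk ?_ (Continuous.prodMk ?_ continuous_snd)
    · have h2 : Continuous fun w : (Fin (v + 2) → ℝ) × A => (Complex.equivRealProdCLM.symm
          ((w.1 0, w.1 1) : ℝ × ℝ) : ℂ) := by
        refine Complex.equivRealProdCLM.symm.continuous.comp ?_
        fun_prop
      refine h2.congr fun u => ?_
      apply Complex.ext <;> simp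
    · exact continuous_pi fun i => (continuous_apply _).comp continuous_fst

/-- the map `(x, a) ↦ [squash x, ρ a]` -/
def xi {v : ℕ} {A : LC} [CompactSpace A] {X : Type} [TopologicalSpace X] (ρ : C(A, X)) :
    PMap ((LC.rpow (Fin v)).prod A) (Sph v X) :=
  mkF (K := (LC.rpow (Fin v)).prod A) (T := A) (Y := Sph v X)
    (Homeomorph.refl _) (fun p => Sph.mk p.1 (ρ p.2))
    (mk_continuous_pair continuous_fst (ρ.continuous.comp continuous_snd))
    fun u _ hu => mk_eq_pt_of_boundary u _ hu

theorem xi_apply {v : ℕ} {A : LC} [CompactSpace A] {X : Type} [TopologicalSpace X] (ρ : C(A, X))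
    (x : Fin v → ℝ) (a : A) : (xi ρ : PMap ((LC.rpow (Fin v)).prod A) (Sph v X)) (x, a) =
      Sph.mk (sqv x) (ρ a) := rfl

theorem lev_even (e : ℕ) (n : ℕ) : Even (lev (2 * e) (2 * n)) := by
  induction n with
  | zero => exact ⟨0, rfl⟩
  | succ n ih =>
    change Even (if (if lev (2 * e) (2 * n) = 2 * e then 1 else lev (2 * e) (2 * n) + 1) = 2 * e
      then 1 else (if lev (2 * e) (2 * n) = 2 * e then 1 else lev (2 * e) (2 * n) + 1) + 1)
    obtain ⟨m, hm⟩ := ih
    by_cases h : lev (2 * e) (2 * n) = 2 * e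
    · rw [if_pos h, if_neg (by omega)]
      exact ⟨1, rfl⟩
    · rw [if_neg h, if_neg (by omega), hm]
      exact ⟨m + 1, by ring⟩

/-! ### The family of elements -/

theorem goodU : GoodD Set.univ := Or.inl rfl
theorem good1 : GoodD {1} := Or.inr rfl

instance instCompactStage {D : Set ℂ} (hD : GoodD D) (l : ℕ) : CompactSpace (stageLC hD l) :=
  isCompact_iff_compactSpace.1 (isCompact_stage D l)

section
variable {e k : ℕ} (f : GenLoop (Fin (2 * e)) (Gr {1} k) (Gr.pt {1} k))
  (f' : GenLoop (Fin (2 * e)) (Gr Set.univ k) (Gr.pt Set.univ k))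
  (ρ : ∀ l, C(stageLC goodU l, BG {1}))

/-- the maps of the levels of the compact model of `BU` -/
def xiN (n : ℕ) : PMap (modelK goodU k (2 * e) n) ((tele (mulMap f)).sp (2 * n)) :=
  xi (v := lev (2 * e) (2 * n)) (A := stageLC goodU (blk (2 * e) (2 * n) * (k + 1))) (ρ _)

theorem xiN_apply (n : ℕ) (x : Fin (lev (2 * e) (2 * n)) → ℝ)
    (a : stageLC goodU (blk (2 * e) (2 * n) * (k + 1))) :
    xiN f ρ n (x, a) = Sph.mk (sqv x) (ρ _ a) := rfl

theorem step_value (he : 0 < 2 * e) (n : ℕ) (y : LC.C.prod (modelK goodU k (2 * e) n))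
    (w : Fin (lev (2 * e) (2 * (n + 1))) → unitInterval) (b : BG Set.univ)
    (hb : b ∈ stage Set.univ (blk (2 * e) (2 * (n + 1)) * (k + 1)))
    (h : teleStr (mulMap f') (lev (2 * e) (2 * n + 1)) (squash y.1.re)
      (teleStr (mulMap f') (lev (2 * e) (2 * n)) (squash y.1.im) (Sph.mk (sqv y.2.1) y.2.2.1)) =
      Sph.mk w b) :
    ((xiN f ρ (n + 1)).comp ((levelsModel goodU he f').step n)) y = Sph.mk w (ρ _ ⟨b, hb⟩) := by
  have h1 := congrArg (fun F : PMap _ _ => F y) (lvP_step (levelsModel goodU he f') n)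
  have h2 : (((lvP (levelsModel goodU he f') (n + 1)).plus
      ((levelsModel goodU he f').step n y) : (model f').sp (2 * (n + 1))).1 :
        Sph (lev (2 * e) (2 * (n + 1))) (BG Set.univ)) = Sph.mk w b := by
    refine (congrArg Subtype.val h1).trans ?_
    refine Eq.trans ?_ h
    change teleStr (mulMap f') (lev (2 * e) (2 * n + 1)) (squash y.1.re)
      (teleStr (mulMap f') (lev (2 * e) (2 * n)) (squash y.1.im)
        (lvP (levelsModel goodU he f') n y.2 : (model f').sp (2 * n)).1) = _
    rw [lvP_levelsModel goodU he f' n y.2]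
    rfl
  change (xiN f ρ (n + 1)).plus ((levelsModel goodU he f').step n y) = _
  generalize (levelsModel goodU he f').step n y = q at h2
  induction q using OnePoint.rec with
  | infty =>
    have h3 : Sph.mk w b = (Sph (lev (2 * e) (2 * (n + 1))) (BG Set.univ)).pt := h2.symm
    exact (mk_eq_pt_of_boundary w (ρ _ ⟨b, hb⟩) (mk_eq_pt h3)).symm
  | coe x =>
    obtain ⟨x, a⟩ := x
    have h3 : (lvP (levelsModel goodU he f') (n + 1) (x, a) : (model f').sp (2 * (n + 1))).1 =
      Sph.mk w b := h2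
    rw [lvP_levelsModel goodU he f' (n + 1) (x, a)] at h3
    obtain ⟨h4, h5⟩ := mk_eq_mk (sqv_notMem x) h3
    subst h4
    obtain rfl : a = ⟨b, hb⟩ := Subtype.ext h5
    rfl

theorem ρ_congr {l l' : ℕ} (h : l = l') (b : BG Set.univ) (hb : b ∈ stage Set.univ l)
    (hb' : b ∈ stage Set.univ l') : ρ l ⟨b, hb⟩ = ρ l' ⟨b, hb'⟩ := by
  subst h
  rfl

theorem tl_sqv {v d : ℕ} (h : v = d) (A : LC) (y : LC.C.prod ((LC.rpow (Fin v)).prod A)) :
    tl h (sqv (eC v A y).1) = Fin.cons (squash y.1.im) fun i => sqv y.2.1 (Fin.cast h.symm i) := by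
  funext i
  induction i using Fin.cases with
  | zero => rfl
  | succ j => rfl

theorem sqv_cons {v : ℕ} (t : ℝ) (x : Fin v → ℝ) :
    sqv (Fin.cons t x : Fin (v + 1) → ℝ) = Fin.cons (squash t) (sqv x) := by
  funext i
  induction i using Fin.cases with
  | zero => rfl
  | succ j => rfl

/-- the last coordinates -/
def cc {v d : ℕ} (h : v = d) {A : LC} (y : LC.C.prod ((LC.rpow (Fin v)).prod A)) :
    Fin (d + 1) → unitInterval :=
  Fin.cons (squash y.1.im) fun i => sqv y.2.1 (Fin.cast h.symm i)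

omit f f' ρ in
theorem homotopic_B' {v d : ℕ} (h : v = d) {A : LC} [CompactSpace A]
    {Z B : Type} [TopologicalSpace Z] [TopologicalSpace B] {z : Z}
    (f : GenLoop (Fin d) Z z) (H : C(unitInterval × (Z × A), B)) {v'' : ℕ} (hc : 2 = v'')
    (F₀ F₁ : PMap (LC.C.prod ((LC.rpow (Fin v)).prod A)) (Sph v'' B))
    (h0 : ∀ y, F₀ y = Sph.cast hc (Sph.mk (Fin.cons (squash y.1.re) (height (cc h y)) :
      Fin 2 → unitInterval) (H (0, (wv f (cc h y), y.2.2)))))
    (h1 : ∀ y, F₁ y = Sph.cast hc (Sph.mk (Fin.cons (squash y.1.re) (height (cc h y)) :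
      Fin 2 → unitInterval) (H (1, (wv f (cc h y), y.2.2))))) :
    F₀.Homotopic F₁ := by
  refine homotopic_B h (T := A) (eC v A) f H hc F₀ F₁ (fun y => ?_) (fun y => ?_)
  · rw [tl_sqv]
    exact h0 y
  · rw [tl_sqv]
    exact h1 y

theorem compat (he : 0 < 2 * e) (uk : C(Gr {1} k, Gr Set.univ k))
    (hpt : uk (Gr.pt {1} k) = Gr.pt Set.univ k) (hff : ∀ c, f' c = uk (f c))
    (hact : ∀ (W : Gr Set.univ k) (l : ℕ) (b : BG Set.univ), b ∈ stage Set.univ l →
      act Set.univ k (W, b) ∈ stage Set.univ (k + l + 1))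
    (H1 : ∀ l, ∃ H : C(unitInterval × (Gr {1} k × stageLC goodU l), BG {1}),
      (∀ W a, H (0, (W, a)) = ρ (k + l + 1) ⟨act Set.univ k (uk W, a.1), hact _ _ _ a.2⟩) ∧
      ∀ W a, H (1, (W, a)) = act {1} k (W, ρ l a)) (n : ℕ) :
    ((xiN f ρ (n + 1)).comp ((levelsModel goodU he f').step n)).Homotopic
      ((tele (mulMap f)).sigC (xiN f ρ n)) := by
  have hev := lev_even e n
  by_cases h : lev (2 * e) (2 * n) = 2 * e
  · obtain ⟨H, hH0, hH1⟩ := H1 (blk (2 * e) (2 * n) * (k + 1))
    have hc : 2 = lev (2 * e) (2 * (n + 1)) := by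
      change 2 = if (if lev (2 * e) (2 * n) = 2 * e then 1 else lev (2 * e) (2 * n) + 1) = 2 * e
        then 1 else (if lev (2 * e) (2 * n) = 2 * e then 1 else lev (2 * e) (2 * n) + 1) + 1
      rw [if_pos h, if_neg (by omega)]
    have hl : blk (2 * e) (2 * (n + 1)) * (k + 1) = k + blk (2 * e) (2 * n) * (k + 1) + 1 := by
      change (if (if lev (2 * e) (2 * n) = 2 * e then 1 else lev (2 * e) (2 * n) + 1) = 2 * e
        then (if lev (2 * e) (2 * n) = 2 * e then blk (2 * e) (2 * n) + 1 else blk (2 * e) (2 * n))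
          + 1
        else (if lev (2 * e) (2 * n) = 2 * e then blk (2 * e) (2 * n) + 1 else
          blk (2 * e) (2 * n))) * (k + 1) = k + blk (2 * e) (2 * n) * (k + 1) + 1
      rw [if_pos h, if_neg (by omega), if_pos h]
      ring
    have hw : ∀ c, wv f' c = uk (wv f c) := by
      intro c
      unfold wv
      split_ifs
      · exact hff _
      · exact hpt.symm
    refine homotopic_B' h (A := stageLC goodU (blk (2 * e) (2 * n) * (k + 1))) f H hc _ _ ?_ ?_
    · intro y
      have h3 : act Set.univ k (uk (wv f (cc h y)), y.2.2.1) ∈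
          stage Set.univ (blk (2 * e) (2 * (n + 1)) * (k + 1)) := by
        rw [hl]
        exact hact _ _ _ y.2.2.2
      have e0 : teleStr (mulMap f') (lev (2 * e) (2 * n + 1)) (squash y.1.re)
          (teleStr (mulMap f') (lev (2 * e) (2 * n)) (squash y.1.im)
            (Sph.mk (sqv y.2.1) y.2.2.1)) =
          Sph.cast hc (Sph.mk (Fin.cons (squash y.1.re) (height (cc h y)) : Fin 2 → unitInterval)
            (act Set.univ k (uk (wv f (cc h y)), y.2.2.1))) := by
        rw [← hw]
        exact teleStr_two_B (mulMap f') h (by omega) _ _ _ _ _ _ rfl hc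
      have e1 := cast_mk hc (Fin.cons (squash y.1.re) (height (cc h y)) : Fin 2 → unitInterval)
        (H (0, (wv f (cc h y), y.2.2)))
      have e2 := hH0 (wv f (cc h y)) y.2.2
      have e3 := ρ_congr ρ hl _ h3 (hact _ _ _ y.2.2.2)
      exact (step_value f f' ρ he n y _ _ h3 (e0.trans (cast_mk hc _ _))).trans
        ((congrArg (Sph.mk _) (e3.trans e2.symm)).trans e1.symm)
    · intro y
      have e0 : teleStr (mulMap f) (lev (2 * e) (2 * n + 1)) (squash y.1.re)
          (teleStr (mulMap f) (lev (2 * e) (2 * n)) (squash y.1.im)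
            (Sph.mk (sqv y.2.1) (ρ _ y.2.2))) =
          Sph.cast hc (Sph.mk (Fin.cons (squash y.1.re) (height (cc h y)) : Fin 2 → unitInterval)
            (act {1} k ((wv f (cc h y)), ρ _ y.2.2))) :=
        teleStr_two_B (mulMap f) h (by omega) _ _ _ _ _ _ rfl hc
      rw [← hH1] at e0
      exact e0
  · have hc : lev (2 * e) (2 * n) + 2 = lev (2 * e) (2 * (n + 1)) := by
      change lev (2 * e) (2 * n) + 2 = if (if lev (2 * e) (2 * n) = 2 * e then 1 else
        lev (2 * e) (2 * n) + 1) = 2 * e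
        then 1 else (if lev (2 * e) (2 * n) = 2 * e then 1 else lev (2 * e) (2 * n) + 1) + 1
      rw [if_neg h, if_neg (by obtain ⟨m, hm⟩ := hev; omega)]
    have hl : blk (2 * e) (2 * (n + 1)) * (k + 1) = blk (2 * e) (2 * n) * (k + 1) := by
      change (if (if lev (2 * e) (2 * n) = 2 * e then 1 else lev (2 * e) (2 * n) + 1) = 2 * e
        then (if lev (2 * e) (2 * n) = 2 * e then blk (2 * e) (2 * n) + 1 else blk (2 * e) (2 * n))
          + 1
        else (if lev (2 * e) (2 * n) = 2 * e then blk (2 * e) (2 * n) + 1 else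
          blk (2 * e) (2 * n))) * (k + 1) = blk (2 * e) (2 * n) * (k + 1)
      rw [if_neg h, if_neg (by obtain ⟨m, hm⟩ := hev; omega), if_neg h]
    have h2 : lev (2 * e) (2 * n) + 1 ≠ 2 * e := by
      obtain ⟨m, hm⟩ := hev
      omega
    have key : (xiN f ρ (n + 1)).comp ((levelsModel goodU he f').step n) =
        (tele (mulMap f)).sigC (xiN f ρ n) := by
      ext y
      have h3 : y.2.2.1 ∈ stage Set.univ (blk (2 * e) (2 * (n + 1)) * (k + 1)) := by
        rw [hl]
        exact y.2.2.2
      have h4 := step_value f f' ρ he n y _ _ h3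
        ((teleStr_two_A (mulMap f') h h2 _ _ _ _ hc).trans (cast_mk hc _ _))
      have e0 : teleStr (mulMap f) (lev (2 * e) (2 * n + 1)) (squash y.1.re)
          (teleStr (mulMap f) (lev (2 * e) (2 * n)) (squash y.1.im)
            (Sph.mk (sqv y.2.1) (ρ _ y.2.2))) = _ :=
        (teleStr_two_A (mulMap f) h h2 _ _ _ _ hc).trans (cast_mk hc _ _)
      refine h4.trans (Eq.trans ?_ e0.symm)
      exact congrArg _ (ρ_congr ρ hl _ h3 y.2.2.2)
    rw [key]
    exact PMap.Homotopic.refl _

end

/-! ### The maps from `BSU` to `BU` -/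

/-- a map of sub-prespectra -/
def subMap {Y Z : Prespectrum} {S : ∀ n, Set (Y.sp n)} {hpt : ∀ n, (Y.sp n).pt ∈ S n}
    {hstr : ∀ n t, ∀ y ∈ S n, Y.str n (t, y) ∈ S (n + 1)} {T : ∀ n, Set (Z.sp n)}
    {kpt : ∀ n, (Z.sp n).pt ∈ T n} {kstr : ∀ n t, ∀ y ∈ T n, Z.str n (t, y) ∈ T (n + 1)}
    (φ : Y ⟶ Z) (h : ∀ n, ∀ y ∈ S n, Prespectrum.Hom.map φ n y ∈ T n) :
    Y.sub S hpt hstr ⟶ Z.sub T kpt kstr :=
  ({ map := fun n => ⟨fun y => ⟨Prespectrum.Hom.map φ n y.1, h n y.1 y.2⟩,
      Continuous.subtype_mk ((Prespectrum.Hom.map φ n).continuous.comp continuous_subtype_val) _⟩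
     map_pt := fun n => Subtype.ext (Prespectrum.Hom.map_pt φ n)
     map_str := fun n t x => Subtype.ext (Prespectrum.Hom.map_str φ n t x.1) } :
    Prespectrum.Hom (Y.sub S hpt hstr) (Z.sub T kpt kstr))

section
variable {e k : ℕ} (f : GenLoop (Fin (2 * e)) (Gr {1} k) (Gr.pt {1} k))
  (f' : GenLoop (Fin (2 * e)) (Gr Set.univ k) (Gr.pt Set.univ k))
  (ρ : ∀ l, C(stageLC goodU l, BG {1}))
  (U : C(BG {1}, BG Set.univ))
  (hU : ∀ l (A : Frame l), U (Quot.mk _ ⟨l, A⟩) = Quot.mk _ ⟨l, A⟩)
  (uk : C(Gr {1} k, Gr Set.univ k))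
  (huk : ∀ A : Frame k, uk (Quot.mk _ A) = Quot.mk _ A)
  (hff : ∀ c, f' c = uk (f c))

include hU huk in
theorem U_act (W : Gr {1} k) (x : BG {1}) : U (act {1} k (W, x)) = act Set.univ k (uk W, U x) := by
  induction W using Quot.ind with | _ B => ?_
  induction x using Quot.ind with | _ A => ?_
  obtain ⟨l, A⟩ := A
  rw [huk, hU]
  exact hU (k + l) (B.sum A)

include hU in
theorem U_stage (l : ℕ) (x : BG {1}) (hx : x ∈ stage {1} l) : U x ∈ stage Set.univ l := by
  obtain ⟨A, rfl⟩ := hx
  induction A using Quot.ind with | _ A => ?_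
  exact ⟨Quot.mk _ A, (hU l A).symm⟩

/-- the map of stages -/
def stMap (l : ℕ) : C(stageLC good1 l, stageLC goodU l) :=
  ⟨fun a => ⟨U a.1, U_stage U hU l a.1 a.2⟩,
    Continuous.subtype_mk (U.continuous.comp continuous_subtype_val) _⟩

include hU huk hff in
theorem U_mul (u : Fin (2 * e + 1) → unitInterval) (x : BG {1}) :
    sphMap 1 U ((mulMap f).toFun (u, x)) = (mulMap f').toFun (u, U x) := by
  have hpt : uk (Gr.pt {1} k) = Gr.pt Set.univ k := huk _
  change Sph.mk (height u) (U (act {1} k (wv f u, x))) =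
    Sph.mk (height u) (act Set.univ k (wv f' u, U x))
  rw [U_act U hU uk huk]
  have hw : wv f' u = uk (wv f u) := by
    unfold wv
    split_ifs
    · exact hff _
    · exact hpt.symm
  rw [hw]

include hU in
theorem U_modelSet (n : ℕ) (y : Sph (lev (2 * e) n) (BG {1})) (hy : y ∈ modelSet f n) :
    (sphMap (lev (2 * e) n) U y : Sph (lev (2 * e) n) (BG Set.univ)) ∈ modelSet f' n := by
  rcases hy with rfl | ⟨u, x, hx, rfl⟩
  · exact Or.inl rfl
  · exact Or.inr ⟨u, U x, U_stage U hU _ x hx, rfl⟩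

/-- the map of telescopes -/
def telU : tele (mulMap f) ⟶ tele (mulMap f') :=
  teleMap (mulMap f) (mulMap f') U (U_mul f f' U hU uk huk hff)

/-- the map of compact models -/
def modU : model f ⟶ model f' :=
  subMap (telU f f' U hU uk huk hff) fun n y hy => U_modelSet f f' U hU n y hy

theorem modU_comp : modU f f' U hU uk huk hff ≫ modelInc f' =
    modelInc f ≫ telU f f' U hU uk huk hff := rfl

/-- the map of levels -/
def psiK (n : ℕ) : PMap (modelK good1 k (2 * e) n) (modelK goodU k (2 * e) n).plus :=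
  PMap.box (PMap.id (LC.rpow (Fin (lev (2 * e) (2 * n)))))
    (PMap.ofProper (stMap U hU (blk (2 * e) (2 * n) * (k + 1))) (ContinuousMap.continuous _) (by
      rw [Filter.cocompact_eq_bot]
      exact tendsto_bot))

theorem post_modU (he : 0 < 2 * e) (n : ℕ) :
    PMap.post (Prespectrum.Hom.map (modU f f' U hU uk huk hff) (2 * n))
      (Prespectrum.Hom.map (modU f f' U hU uk huk hff) (2 * n)).continuous
      (Prespectrum.Hom.map_pt (modU f f' U hU uk huk hff) (2 * n))
      (lvP (levelsModel good1 he f) n) = (lvP (levelsModel goodU he f') n).comp (psiK U hU n) := by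
  ext ⟨x, a⟩
  change Prespectrum.Hom.map (modU f f' U hU uk huk hff) (2 * n)
    (lvP (levelsModel good1 he f) n (x, a)) =
      lvP (levelsModel goodU he f') n (x, stMap U hU _ a)
  rw [lvP_levelsModel good1 he f n (x, a), lvP_levelsModel goodU he f' n (x, stMap U hU _ a)]
  rfl

theorem homotopic_inc (he : 0 < 2 * e)
    (H2 : ∀ l, ∃ H : C(unitInterval × stageLC good1 l, BG {1}),
      (∀ a, H (0, a) = ρ l (stMap U hU l a)) ∧ ∀ a, H (1, a) = a.1) (n : ℕ) :
    ((xiN f ρ n).comp (psiK U hU n)).Homotopic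
      (PMap.post (Prespectrum.Hom.map (modelInc f) (2 * n))
      (Prespectrum.Hom.map (modelInc f) (2 * n)).continuous
      (Prespectrum.Hom.map_pt (modelInc f) (2 * n)) (lvP (levelsModel good1 he f) n)) := by
  obtain ⟨H, h0, h1⟩ := H2 (blk (2 * e) (2 * n) * (k + 1))
  refine homotopic_mkF (K := modelK good1 k (2 * e) n) (Y := (tele (mulMap f)).sp (2 * n))
    (Homeomorph.refl _) (T := stageLC good1 (blk (2 * e) (2 * n) * (k + 1)))
    (v := lev (2 * e) (2 * n)) (fun p => Sph.mk p.1 (H p.2))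
    (mk_continuous_pair continuous_fst (H.continuous.comp continuous_snd))
    (fun u _ hu => mk_eq_pt_of_boundary u _ hu) ?_ ?_
  · rintro ⟨x, a⟩
    exact congrArg (Sph.mk (sqv x)) (h0 a).symm
  · rintro ⟨x, a⟩
    refine (congrArg (fun y : (model f).sp (2 * n) => y.1)
      (lvP_levelsModel good1 he f n (x, a))).trans ?_
    exact congrArg (Sph.mk (sqv x)) (h1 a).symm

include huk hff in
theorem retract_core (he : 0 < 2 * e)
    (hact : ∀ (W : Gr Set.univ k) (l : ℕ) (b : BG Set.univ), b ∈ stage Set.univ l →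
      act Set.univ k (W, b) ∈ stage Set.univ (k + l + 1))
    (H1 : ∀ l, ∃ H : C(unitInterval × (Gr {1} k × stageLC goodU l), BG {1}),
      (∀ W a, H (0, (W, a)) = ρ (k + l + 1) ⟨act Set.univ k (uk W, a.1), hact _ _ _ a.2⟩) ∧
      ∀ W a, H (1, (W, a)) = act {1} k (W, ρ l a))
    (H2 : ∀ l, ∃ H : C(unitInterval × stageLC good1 l, BG {1}),
      (∀ a, H (0, a) = ρ l (stMap U hU l a)) ∧ ∀ a, H (1, a) = a.1) :
    ∃ (i : hP.obj (tele (mulMap f)) ⟶ hP.obj (tele (mulMap f')))
      (r : hP.obj (tele (mulMap f')) ⟶ hP.obj (tele (mulMap f))), i ≫ r = 𝟙 _ := by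
  have i1 : IsIso (hP.map (modelInc f)) :=
    (stableEquiv_iff _).1 (stableEquiv_modelInc good1 he f)
  have i2 : IsIso (hP.map (modelInc f')) :=
    (stableEquiv_iff _).1 (stableEquiv_modelInc goodU he f')
  have hpt : uk (Gr.pt {1} k) = Gr.pt Set.univ k := huk _
  obtain ⟨R, hR⟩ := (levelsModel goodU he f').yoneda_hP (tele (mulMap f))
    (fun n => ucl (tele (mulMap f)) n ((levelsModel goodU he f').T n) (xiN f ρ n)) (by
      intro n
      refine (res_ucl _ _ _ _ _ _).trans ?_
      refine Eq.trans ?_ (σ_ucl _ _ _ _).symm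
      exact ucl_homotopic _ _ _ (compat f f' ρ he uk hpt hff hact H1 n))
  refine ⟨hP.map (telU f f' U hU uk huk hff), inv (hP.map (modelInc f')) ≫ R, ?_⟩
  rw [← cancel_epi (hP.map (modelInc f))]
  have h3 : hP.map (modelInc f) ≫ hP.map (telU f f' U hU uk huk hff) =
      hP.map (modU f f' U hU uk huk hff) ≫ hP.map (modelInc f') := by
    rw [← hP.map_comp, ← hP.map_comp, modU_comp]
  rw [← Category.assoc, h3, Category.assoc, IsIso.hom_inv_id_assoc, Category.comp_id]
  refine (levelsModel good1 he f).hom_ext _ fun n => ?_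
  have a1 := map_ucl (modU f f' U hU uk huk hff) n ((levelsModel good1 he f).T n)
    (lvP (levelsModel good1 he f) n)
  have a2 := map_ucl (modelInc f) n ((levelsModel good1 he f).T n)
    (lvP (levelsModel good1 he f) n)
  have a1' := a1.trans (congrArg (ucl (model f') n ((levelsModel good1 he f).T n))
    (post_modU f f' U hU uk huk hff he n))
  have a3 := res_ucl (model f') n ((levelsModel good1 he f).test n)
    ((levelsModel goodU he f').test n) (psiK U hU n) (lvP (levelsModel goodU he f') n)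
  have a4 := res_ucl (tele (mulMap f)) n ((levelsModel good1 he f).test n)
    ((levelsModel goodU he f').test n) (psiK U hU n) (xiN f ρ n)
  have a5 := hR n
  rw [u_eq] at a5 ⊢
  refine Eq.trans ?_ ((ucl_homotopic _ _ _ (homotopic_inc f ρ U hU he H2 n)).trans a2.symm)
  refine (congrArg ((R.app n).app (op ((levelsModel good1 he f).T n))) (a1'.trans a3.symm)).trans ?_
  refine Eq.trans ?_ a4
  refine Eq.trans ?_ (congrArg _ a5)
  exact NatTrans.naturality_apply (R.app n) _ _

end

/-! ### Stages -/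

theorem toBG_injective {D : Set ℂ} (hD : GoodD D) (l : ℕ) : Function.Injective (toBG D l) := by
  intro x y h
  induction x using Quot.ind with | _ A => ?_
  induction y using Quot.ind with | _ B => ?_
  exact Quot.sound ((mk_eq_iff hD A B).1 h)

/-- a stage is the space `Gr D l` -/
def stHomeo {D : Set ℂ} (hD : GoodD D) (l : ℕ) : Gr D l ≃ₜ stageLC hD l :=
  have h1 : CompactSpace (Gr D l) := inferInstanceAs (CompactSpace (Quot (FrameRel D l)))
  Continuous.homeoOfEquivCompactToT2 (X := Gr D l) (Y := stageLC hD l)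
    (f := Equiv.ofBijective (fun a => (⟨toBG D l a, mem_range_self a⟩ : stage D l))
      ⟨fun a b h => toBG_injective hD l (congrArg Subtype.val h), fun b => by
        obtain ⟨b, a, rfl⟩ := b
        exact ⟨a, rfl⟩⟩)
    (Continuous.subtype_mk (toBG D l).continuous _)

theorem stHomeo_apply {D : Set ℂ} (hD : GoodD D) (l : ℕ) (a : Gr D l) :
    (stHomeo hD l a).1 = toBG D l a := rfl

end Bsu5

end Pool.Agent.Helper1.Stab
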