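import Pool.Agent.Helper1.Stab.Model

/-! Classes at stage zero of the graded functor of a prespectrum. -/

open CategoryTheory Topology Filter Set Opposite

noncomputable section

namespace Pool.Agent.Helper1.Stab

namespace Bsu5

/-- the projection away from `ℂ^0` -/
def pr0 (K : LC) : PMap ((LC.cpow (Fin 0)).prod K) K.plus :=
  PMap.ofHomeo (K := (LC.cpow (Fin 0)).prod K) (L := K)
      { toFun := fun x => x.2
        invFun := fun x => (0, x)
        left_inv := fun x => Prod.ext (Subsingleton.elim _ _) rfl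
        right_inv := fun _ => rfl
        continuous_toFun := by fun_prop
        continuous_invFun := by fun_prop }

/-- a map to level `2 n` of `Y` as a map to level `0` of the shift -/
def low (Y : Prespectrum) (n : ℕ) {K : LC} (f : PMap K (Y.sp (2 * n))) :
    PMap K ((Y.upp n).sp 0) :=
  PMap.post (Y := Y.sp (2 * n)) (Z := (Y.upp n).sp 0) (Y.uppCast n 0).symm
    (Y.uppCast n 0).symm.continuous
    (by rw [Homeomorph.symm_apply_eq]; exact (Y.uppCast_pt n 0).symm) f

/-- the class of a map to level `2 n` -/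
def ucl (Y : Prespectrum) (n : ℕ) (K : Test) (f : PMap K.obj (Y.sp (2 * n))) :
    ((hP.obj Y).h n).obj (op K) :=
  (hT Y).cls (b := n) (j := 0) (K := K) (PMap.comp (low Y n f) (pr0 K.obj))

theorem eq_symm_apply {A B : Type} [TopologicalSpace A] [TopologicalSpace B] {e : A ≃ₜ B} {a : A}
    {b : B} (h : e a = b) : a = e.symm b := by
  rw [← h, Homeomorph.symm_apply_apply]

theorem low_apply (Y : Prespectrum) (n : ℕ) {K : LC} (f : PMap K (Y.sp (2 * n))) (k : K) :
    low Y n f k = (Y.uppCast n 0).symm (f k) := rfl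

theorem homotopic_post {K : LC} {Y Z : PT} (g : Y → Z) (hg : Continuous g) (h : g Y.pt = Z.pt)
    {f f' : PMap K Y} (hf : f.Homotopic f') :
    (PMap.post g hg h f).Homotopic (PMap.post g hg h f') := by
  obtain ⟨H, h0, h1⟩ := hf
  exact ⟨H.post g hg h, fun k => congrArg g (h0 k), fun k => congrArg g (h1 k)⟩

theorem ucl_homotopic (Y : Prespectrum) (n : ℕ) (K : Test) {f g : PMap K.obj (Y.sp (2 * n))}
    (h : f.Homotopic g) : ucl Y n K f = ucl Y n K g :=
  (hT Y).cls_homotopic ((homotopic_post _ _ _ h).comp_left _)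

theorem res_ucl (Y : Prespectrum) (n : ℕ) {K L : LC} (hK : IsTest K) (hL : IsTest L)
    (φ : PMap K L.plus) (f : PMap L (Y.sp (2 * n))) :
    Test.res ((hP.obj Y).h n) hK hL φ (ucl Y n ⟨L, hL⟩ f) = ucl Y n ⟨K, hK⟩ (f.comp φ) := by
  have h1 := (hT Y).map_cls (b := n) (j := 0) (K := ⟨K, hK⟩) (L := ⟨L, hL⟩) φ
    (PMap.comp (low Y n f) (pr0 L))
  refine h1.trans (congrArg _ ?_)
  ext ⟨x, k⟩
  change (PMap.comp (low Y n f) (pr0 L)).plus (smashPt _ _ ((x : OnePoint _), φ k)) =
    (Y.uppCast n 0).symm (f.plus (φ k))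
  generalize φ k = y
  induction y using OnePoint.rec with
  | infty =>
    rw [smashPt_inf_right]
    change ((Y.upp n).sp 0).pt = (Y.uppCast n 0).symm ((Y.sp (2 * n)).pt)
    symm
    rw [Homeomorph.symm_apply_eq]; exact (Y.uppCast_pt n 0).symm
  | coe l => rfl

theorem castSp_rfl (Y : Prespectrum) {a : ℕ} (h : a = a) (x : Y.sp a) : Y.castSp h x = x := rfl

theorem castSp_map {X Y : Prespectrum} (φ : X ⟶ Y) {a b : ℕ} (h : a = b) (x : X.sp a) :
    Prespectrum.Hom.map φ b (X.castSp h x) = Y.castSp h (Prespectrum.Hom.map φ a x) := by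
  subst h
  rfl

theorem uppCast_map {X Y : Prespectrum} (φ : X ⟶ Y) (n k : ℕ) (x : (X.upp n).sp k) :
    Y.uppCast n k (Prespectrum.Hom.map (Prespectrum.Hom.uppMap φ n) k x) =
      Prespectrum.Hom.map φ (2 * n + k) (X.uppCast n k x) := by
  induction n generalizing k with
  | zero => exact (castSp_map φ (by omega) x).symm
  | succ n ih =>
    change Y.castSp _ (Y.uppCast n (k + 2) (Prespectrum.Hom.map (Prespectrum.Hom.uppMap φ n)
      (k + 2) x)) = Prespectrum.Hom.map φ (2 * (n + 1) + k) (X.castSp _ (X.uppCast n (k + 2) x))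
    refine (congrArg (Y.castSp _) (ih (k + 2) x)).trans ?_
    exact (castSp_map φ _ _).symm

theorem map_ucl {X Y : Prespectrum} (φ : X ⟶ Y) (n : ℕ) (K : Test)
    (f : PMap K.obj (X.sp (2 * n))) :
    ((hP.map φ).app n).app (op K) (ucl X n K f) =
      ucl Y n K (PMap.post (Prespectrum.Hom.map φ (2 * n))
        (Prespectrum.Hom.map φ (2 * n)).continuous (Prespectrum.Hom.map_pt φ (2 * n)) f) := by
  have h1 := hP_map_cls φ (b := n) (K := K) (PMap.comp (low X n f) (pr0 K.obj))
  refine h1.trans (congrArg _ ?_)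
  ext ⟨x, k⟩
  change Prespectrum.Hom.map (Prespectrum.Hom.uppMap φ n) 0 ((X.uppCast n 0).symm (f k)) =
    (Y.uppCast n 0).symm (Prespectrum.Hom.map φ (2 * n) (f k))
  symm
  rw [Homeomorph.symm_apply_eq]
  have h2 := uppCast_map φ n 0 ((X.uppCast n 0).symm (f k))
  rw [Homeomorph.apply_symm_apply] at h2
  exact h2.symm

theorem low_sigC (Y : Prespectrum) (n : ℕ) {K : LC} (f : PMap K (Y.sp (2 * n)))
    (x : LC.C.prod K) :
    (Y.uppCast n 2) ((Y.upp n).sigC (low Y n f) x) = Y.sigC f x := by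
  change (Y.uppCast n 2) ((Y.upp n).str 1 (squash x.1.re, (Y.upp n).str 0 (squash x.1.im,
    (Y.uppCast n 0).symm (f x.2)))) = Y.str (2 * n + 1) (squash x.1.re, Y.str (2 * n)
    (squash x.1.im, f x.2))
  have h1 := Y.uppCast_str n 1 (squash x.1.re) ((Y.upp n).str 0 (squash x.1.im,
    (Y.uppCast n 0).symm (f x.2)))
  have h2 := Y.uppCast_str n 0 (squash x.1.im) ((Y.uppCast n 0).symm (f x.2))
  rw [Homeomorph.apply_symm_apply] at h2
  refine h1.trans ?_
  exact congrArg (fun y => Y.str (2 * n + 1) (squash x.1.re, y)) h2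

theorem σ_ucl (Y : Prespectrum) (n : ℕ) {K : LC} (hK : IsTest K) (f : PMap K (Y.sp (2 * n))) :
    (((hP.obj Y).σ n).hom.app (op ⟨K, hK⟩)) (ucl Y n ⟨K, hK⟩ f) =
      ucl Y (n + 1) ⟨LC.C.prod K, hK.prodC⟩ (Y.sigC f) := by
  have h1 : ucl Y n ⟨K, hK⟩ f = (hT Y).cls (b := n) (j := 0 + 1) (K := ⟨K, hK⟩)
      (Prespectrum.Rep.next (PMap.comp (low Y n f) (pr0 K))) := ((hT Y).cls_next _).symm
  rw [h1]
  refine ((hT Y).σ_cls (b := n) (j := 0) (K := ⟨K, hK⟩) _).trans ?_
  refine congrArg _ ?_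
  ext ⟨x, z, k⟩
  have h2 := low_sigC Y n f (z, k)
  change (Y.upp n).sigC (PMap.comp (low Y n f) (pr0 K))
    (Fin.lastCases (motive := fun _ => ℂ) z x 0, (fun i => _, k)) =
    (Y.uppCast (n + 1) 0).symm (Y.sigC f (z, k))
  exact eq_symm_apply (e := Y.uppCast (n + 1) 0) h2

/-! ### Levels -/

section
variable {G : Prespectrum} (L : Levels G)

/-- the identification of `K n` with the level `2 n`, minus the base point -/
def lvP (n : ℕ) : PMap (L.K n) (G.sp (2 * n)) :=
  PMap.post (Y := (G.upp n).sp 0) (Z := G.sp (2 * n)) (G.uppCast n 0) (G.uppCast n 0).continuous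
    (G.uppCast_pt n 0) (L.inc n)

theorem lvP_apply (n : ℕ) (x : L.K n) :
    lvP L n x = G.uppCast n 0 ((L.e n).symm (x : OnePoint (L.K n))) := rfl

theorem inc_plus (n : ℕ) (x : OnePoint (L.K n)) : (L.inc n).plus x = (L.e n).symm x := by
  induction x using OnePoint.rec with
  | infty =>
    change ((G.upp n).sp 0).pt = (L.e n).symm OnePoint.infty
    exact eq_symm_apply (L.e_pt n)
  | coe l => rfl

theorem post_plus {K : LC} {Y Z : PT} (g : Y → Z) (hg : Continuous g) (h : g Y.pt = Z.pt)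
    (f : PMap K Y) (x : OnePoint K) : (PMap.post g hg h f).plus x = g (f.plus x) := by
  induction x using OnePoint.rec with
  | infty => exact h.symm
  | coe l => rfl

theorem lvP_plus (n : ℕ) (x : OnePoint (L.K n)) :
    (lvP L n).plus x = G.uppCast n 0 ((L.e n).symm x) :=
  (post_plus _ _ _ _ x).trans (congrArg _ (inc_plus L n x))

theorem lvP_plus_injective (n : ℕ) : Function.Injective (lvP L n).plus := by
  intro x y h
  rw [lvP_plus, lvP_plus] at h
  exact (L.e n).symm.injective ((G.uppCast n 0).injective h)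

theorem u_eq (n : ℕ) : L.u n = ucl G n (L.T n) (lvP L n) := by
  refine congrArg _ ?_
  ext ⟨x, k⟩
  exact (Homeomorph.symm_apply_apply (G.uppCast n 0) _).symm

theorem lvP_step (n : ℕ) : (lvP L (n + 1)).comp (L.step n) = G.sigC (lvP L n) := by
  ext x
  have h1 : low G n (lvP L n) = L.inc n := by
    ext k
    exact Homeomorph.symm_apply_apply (G.uppCast n 0) _
  have h2 := low_sigC G n (lvP L n) x
  rw [h1] at h2
  refine Eq.trans ?_ h2
  refine (lvP_plus L (n + 1) (L.step n x)).trans ?_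
  refine congrArg (G.uppCast (n + 1) 0) ?_
  exact Homeomorph.symm_apply_apply (L.e (n + 1)) _

end

theorem lvP_levelsModel {D : Set ℂ} (hD : GoodD D) {k d : ℕ} (hd : 0 < d)
    (f : GenLoop (Fin d) (Gr D k) (Gr.pt D k)) (n : ℕ) (x : modelK hD k d n) :
    lvP (levelsModel hD hd f) n x = modelPt hD f n x :=
  (exists_levels_aux hD hd f n).choose_spec.2 x

end Bsu5

end Pool.Agent.Helper1.Stab
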